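import Pool.Agent.H706R2.Mah.Defs

namespace Pool.Agent.H706R2.Mah

open MeasureTheory Real Set Filter Topology
open scoped RealInnerProductSpace ENNReal Convolution ContDiff

variable {n : ℕ}

/-- monotonicity of difference quotients of a convex function -/
theorem t10_slope (u : E n → ℝ) (hu : ConvexOn ℝ univ u) (x h : E n) (s : ℝ) (h0 : 0 ≤ s)
    (h1 : s ≤ 1) : u (x + s • h) - u x ≤ s * (u (x + h) - u x) := by
  have h2 := hu.2 (mem_univ x) (mem_univ (x + h)) (by linarith : 0 ≤ 1 - s) h0 (by ring)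
  have e : (1 - s) • x + s • (x + h) = x + s • h := by
    rw [smul_add, sub_smul, one_smul]; abel
  rw [e] at h2
  simp only [smul_eq_mul] at h2
  linarith

/-- the gradient inequality -/
theorem t10_grad (u : E n → ℝ) (hu : ConvexOn ℝ univ u) (x h : E n) (D : E n →L[ℝ] ℝ)
    (hD : HasFDerivAt u D x) : D h ≤ u (x + h) - u x := by
  have hline : HasDerivAt (fun s : ℝ => u (x + s • h)) (D h) 0 := by
    have h1 : HasDerivAt (fun s : ℝ => x + s • h) h 0 := by
      simpa using ((hasDerivAt_id (0 : ℝ)).smul_const h).const_add x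
    have h2 : HasFDerivAt u D (x + (0 : ℝ) • h) := by simpa using hD
    exact h2.comp_hasDerivAt (0 : ℝ) h1
  have ht := hline.tendsto_slope_zero_right
  refine le_of_tendsto ht ?_
  have : ∀ᶠ s : ℝ in 𝓝[>] 0, s ≤ 1 := by
    filter_upwards [Ioo_mem_nhdsGT (show (0 : ℝ) < 1 by norm_num)] with s hs
    exact hs.2.le
  filter_upwards [this, self_mem_nhdsWithin] with s hs1 hs0
  have hs0' : (0 : ℝ) < s := hs0
  have h3 := t10_slope u hu x h s hs0'.le hs1
  simp only [zero_add, zero_smul, add_zero, smul_eq_mul]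
  rw [inv_mul_le_iff₀ hs0']
  linarith

/-- monotonicity of the gradient -/
theorem t10_mono (u : E n → ℝ) (hu : ConvexOn ℝ univ u) (D : E n → E n →L[ℝ] ℝ)
    (hD : ∀ x, HasFDerivAt u (D x) x) (x h : E n) : 0 ≤ (D (x + h) - D x) h := by
  have h1 := t10_grad u hu x h (D x) (hD x)
  have h2 := t10_grad u hu (x + h) (-h) (D (x + h)) (hD (x + h))
  rw [add_neg_cancel_right, map_neg] at h2
  rw [_root_.sub_apply]
  linarith

/-- nonnegativity of the second derivative -/
theorem t10_second (D : E n → E n →L[ℝ] ℝ) (hmono : ∀ x h, 0 ≤ (D (x + h) - D x) h)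
    (D2 : E n →L[ℝ] E n →L[ℝ] ℝ) (x : E n) (hD2 : HasFDerivAt D D2 x) (h : E n) :
    0 ≤ D2 h h := by
  have hline : HasDerivAt (fun s : ℝ => D (x + s • h) h) (D2 h h) 0 := by
    have h1 : HasDerivAt (fun s : ℝ => x + s • h) h 0 := by
      simpa using ((hasDerivAt_id (0 : ℝ)).smul_const h).const_add x
    have h2 : HasFDerivAt D D2 (x + (0 : ℝ) • h) := by simpa using hD2
    have h3 : HasDerivAt (fun s : ℝ => D (x + s • h)) (D2 h) 0 := h2.comp_hasDerivAt (0 : ℝ) h1
    exact h3.clm_apply (hasDerivAt_const (0 : ℝ) h) |>.congr_deriv (by simp)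
  have ht := hline.tendsto_slope_zero_right
  refine ge_of_tendsto ht ?_
  filter_upwards [self_mem_nhdsWithin] with s hs0
  have hs0' : (0 : ℝ) < s := hs0
  have h3 := hmono x (s • h)
  rw [map_smul, smul_eq_mul] at h3
  have h4 : 0 ≤ (D (x + s • h) - D x) h := by
    by_contra hc
    push Not at hc
    have := mul_neg_of_pos_of_neg hs0' hc
    linarith
  simp only [zero_add, zero_smul, add_zero, smul_eq_mul]
  rw [_root_.sub_apply] at h4
  positivity

/-- Lipschitz bound for the derivative of the convolution -/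
theorem t10_lip {G : Type*} [NormedAddCommGroup G] [NormedSpace ℝ G] [FiniteDimensional ℝ G]
    [MeasurableSpace G] [BorelSpace G] (vol : Measure G) [vol.IsAddHaarMeasure] (ρ : G → ℝ) (hρc : HasCompactSupport ρ) (hρs : ContDiff ℝ ∞ ρ) (f : G → ℝ)
    (L : NNReal) (hL : LipschitzWith L f) :
    ∃ K : NNReal, LipschitzWith K (fun x => fderiv ℝ (ρ ⋆[ContinuousLinearMap.lsmul ℝ ℝ, vol] f) x) := by
  have hfc : Continuous f := hL.continuous
  have hfl : LocallyIntegrable f vol := hfc.locallyIntegrable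
  have hρ1 : ContDiff ℝ 1 ρ := hρs.of_le (by exact_mod_cast le_top)
  have hD : ∀ x, HasFDerivAt (ρ ⋆[ContinuousLinearMap.lsmul ℝ ℝ, vol] f)
      ((fderiv ℝ ρ ⋆[(ContinuousLinearMap.lsmul ℝ ℝ : ℝ →L[ℝ] ℝ →L[ℝ] ℝ).precompL (G), vol] f) x) x :=
    fun x => hρc.hasFDerivAt_convolution_left _ hρ1 hfl x
  obtain ⟨P, hP⟩ : ∃ P : (G →L[ℝ] ℝ) →L[ℝ] ℝ →L[ℝ] (G →L[ℝ] ℝ),
    P = (ContinuousLinearMap.lsmul ℝ ℝ : ℝ →L[ℝ] ℝ →L[ℝ] ℝ).precompL (G) := ⟨_, rfl⟩
  rw [← hP] at hD
  have hPa : ∀ (k : G →L[ℝ] ℝ) (a : ℝ), P k a = a • k := by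
    intro k a
    rw [hP]
    ext g
    simp [ContinuousLinearMap.precompL_apply, mul_comm]
  have hk : HasCompactSupport (fderiv ℝ ρ) := hρc.fderiv ℝ
  have hkc : Continuous (fderiv ℝ ρ) := hρ1.continuous_fderiv (by norm_num)
  have hex : ∀ x, Integrable (fun t => P (fderiv ℝ ρ t) (f (x - t))) vol := by
    intro x
    exact hk.convolutionExists_left P hkc hfl x
  have hki : Integrable (fun t => ‖fderiv ℝ ρ t‖) vol :=
    (hkc.integrable_of_hasCompactSupport hk).norm
  set I : ℝ := ∫ t, ‖fderiv ℝ ρ t‖ ∂vol with hI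
  have hI0 : 0 ≤ I := integral_nonneg fun _ => norm_nonneg _
  refine ⟨⟨I * L, by positivity⟩, LipschitzWith.of_dist_le_mul fun x y => ?_⟩
  rw [dist_eq_norm, dist_eq_norm, (hD x).fderiv, (hD y).fderiv]
  unfold MeasureTheory.convolution
  rw [← integral_sub (hex x) (hex y)]
  have hbound : ∀ t, ‖P (fderiv ℝ ρ t) (f (x - t)) - P (fderiv ℝ ρ t) (f (y - t))‖ ≤
      (L * ‖x - y‖) * ‖fderiv ℝ ρ t‖ := by
    intro t
    rw [hPa, hPa]
    have e : f (x - t) • fderiv ℝ ρ t - f (y - t) • fderiv ℝ ρ t =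
        (f (x - t) - f (y - t)) • fderiv ℝ ρ t := by
      ext g
      simp [sub_mul]
    rw [e, norm_smul]
    apply mul_le_mul_of_nonneg_right _ (norm_nonneg _)
    have := hL.dist_le_mul (x - t) (y - t)
    rw [dist_eq_norm, dist_eq_norm, sub_sub_sub_cancel_right] at this
    exact this
  calc ‖∫ t, (P (fderiv ℝ ρ t) (f (x - t)) - P (fderiv ℝ ρ t) (f (y - t))) ∂vol‖
      ≤ ∫ t, (L * ‖x - y‖) * ‖fderiv ℝ ρ t‖ ∂vol :=
        norm_integral_le_of_norm_le (hki.const_mul _) (Eventually.of_forall hbound)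
    _ = (L * ‖x - y‖) * I := by rw [integral_const_mul]
    _ = _ := by
        show L * ‖x - y‖ * I = (I * L) * ‖x - y‖
        ring

theorem T10_smooth (f : E n → ℝ) (hf : ConvexOn ℝ univ f) (L : NNReal) (hL : LipschitzWith L f)
    (hsub : ∀ x h, f (x + h) ≤ f x + f h) (ε : ℝ) (hε : 0 < ε) :
    ∃ (u : E n → ℝ) (v : E n → E n) (B : E n → Mat n) (C : ℝ),
      ConvexOn ℝ univ u ∧ ((∀ x, f (-x) = f x) → ∀ x, u (-x) = u x) ∧
      (∀ x, |u x - f x| ≤ ε) ∧ (∀ x, HasFDerivAt u (innerSL ℝ (v x)) x) ∧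
      (∀ x h, ⟪v x, h⟫ ≤ f h) ∧ (∀ x, HasFDerivAt v (clm (B x)) x) ∧ Continuous B ∧
      (∀ x, (B x).PosSemidef) ∧ (∀ x i j, |B x i j| ≤ C) := by
  classical
  have hL0 : (0 : ℝ) ≤ L := L.2
  obtain ⟨r, hr0, hr⟩ : ∃ r : ℝ, 0 < r ∧ L * r ≤ ε := by
    refine ⟨ε / (L + 1), by positivity, ?_⟩
    rw [mul_div_assoc', div_le_iff₀ (by positivity)]
    nlinarith
  let φ : ContDiffBump (0 : E n) := ⟨r / 2, r, by positivity, by linarith⟩
  obtain ⟨ρ, hρ⟩ : ∃ ρ : E n → ℝ, ρ = φ.normed volume := ⟨_, rfl⟩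
  have hρc : HasCompactSupport ρ := by rw [hρ]; exact φ.hasCompactSupport_normed
  have hρs : ContDiff ℝ ∞ ρ := by rw [hρ]; exact φ.contDiff_normed
  have hρ0 : ∀ t, 0 ≤ ρ t := by rw [hρ]; exact φ.nonneg_normed
  have hρ1 : ∫ t, ρ t = 1 := by rw [hρ]; exact φ.integral_normed
  have hρe : ∀ t, ρ (-t) = ρ t := by rw [hρ]; exact φ.normed_neg
  have hfc : Continuous f := hL.continuous
  have hfl : LocallyIntegrable f volume := hfc.locallyIntegrable
  obtain ⟨u, hudef⟩ : ∃ u : E n → ℝ, u = ρ ⋆[ContinuousLinearMap.lsmul ℝ ℝ, volume] f := ⟨_, rfl⟩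
  have hus : ContDiff ℝ ∞ u := by rw [hudef]; exact hρc.contDiff_convolution_left _ hρs hfl
  have hint : ∀ x, Integrable (fun t => ρ t * f (x - t)) volume := by
    intro x
    have := hρc.convolutionExists_left (ContinuousLinearMap.lsmul ℝ ℝ) hρs.continuous hfl x
    simpa [ConvolutionExistsAt] using this
  have hρi : Integrable ρ volume := hρs.continuous.integrable_of_hasCompactSupport hρc
  have hueq : ∀ x, u x = ∫ t, ρ t * f (x - t) := by
    intro x
    rw [hudef]
    rfl
  have hconv : ConvexOn ℝ univ u := by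
    refine ⟨convex_univ, fun x _ y _ a b ha hb hab => ?_⟩
    rw [hueq, hueq, hueq, smul_eq_mul, smul_eq_mul, ← integral_const_mul, ← integral_const_mul,
      ← integral_add ((hint x).const_mul a) ((hint y).const_mul b)]
    refine integral_mono (hint _) (((hint x).const_mul a).add ((hint y).const_mul b)) fun t => ?_
    have h1 := hf.2 (mem_univ (x - t)) (mem_univ (y - t)) ha hb hab
    have e : a • (x - t) + b • (y - t) = a • x + b • y - t := by
      have : t = a • t + b • t := by rw [← add_smul, hab, one_smul]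
      conv_rhs => rw [this]
      rw [smul_sub, smul_sub]; abel
    rw [e] at h1
    simp only [smul_eq_mul] at h1
    have h2 := mul_le_mul_of_nonneg_left h1 (hρ0 t)
    simp only
    linarith
  have hinc : ∀ x h, u (x + h) - u x ≤ f h := by
    intro x h
    rw [hueq, hueq, ← integral_sub (hint _) (hint _)]
    have h1 : ∫ t, ρ t * f h = f h := by rw [integral_mul_const, hρ1, one_mul]
    rw [← h1]
    refine integral_mono ((hint _).sub (hint _)) (hρi.mul_const _) fun t => ?_
    have h2 := hsub (x - t) h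
    have e : x - t + h = x + h - t := by abel
    rw [e] at h2
    have h3 := mul_le_mul_of_nonneg_left h2 (hρ0 t)
    simp only
    linarith
  have hdiff : Differentiable ℝ u := hus.differentiable (by simp)
  have hDu : ContDiff ℝ ∞ (fderiv ℝ u) := hus.fderiv_right (m := ∞) (by simp)
  have hDd : Differentiable ℝ (fderiv ℝ u) := hDu.differentiable (by simp)
  obtain ⟨K, hK⟩ : ∃ K : NNReal, LipschitzWith K (fun x => fderiv ℝ u x) := by
    rw [hudef]; exact t10_lip volume ρ hρc hρs f L hL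
  -- the gradient
  obtain ⟨J, hJ⟩ : ∃ J : (E n →L[ℝ] ℝ) →L[ℝ] E n,
      ∀ (l : E n →L[ℝ] ℝ) (h : E n), ⟪J l, h⟫ = l h := by
    let J0 : (E n →L[ℝ] ℝ) →ₗ[ℝ] E n :=
      { toFun := fun l => (InnerProductSpace.toDual ℝ (E n)).symm l
        map_add' := fun l m => map_add _ l m
        map_smul' := fun c l => by
          rw [LinearIsometryEquiv.map_smulₛₗ]; simp }
    refine ⟨LinearMap.toContinuousLinearMap J0, fun l h => ?_⟩
    exact InnerProductSpace.toDual_symm_apply
  obtain ⟨B, hB⟩ : ∃ B : E n → Mat n, B = fun x =>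
    (Matrix.toEuclideanCLM (𝕜 := ℝ) (n := Fin n)).symm (J.comp (fderiv ℝ (fderiv ℝ u) x)) := ⟨_, rfl⟩
  have hBc : ∀ x, clm (B x) = J.comp (fderiv ℝ (fderiv ℝ u) x) := by
    intro x
    rw [hB]
    exact (Matrix.toEuclideanCLM (𝕜 := ℝ) (n := Fin n)).apply_symm_apply _
  have hin : ∀ x h k, ⟪h, clm (B x) k⟫ = fderiv ℝ (fderiv ℝ u) x k h := by
    intro x h k
    rw [hBc, real_inner_comm]
    exact hJ _ _
  have hent : ∀ x i j, B x i j = fderiv ℝ (fderiv ℝ u) x (EuclideanSpace.single j 1) (EuclideanSpace.single i 1) := by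
    intro x i j
    rw [← hin, Matrix.inner_toEuclideanCLM]
    simp [EuclideanSpace.single, Matrix.mulVec_single]
  refine ⟨u, fun x => J (fderiv ℝ u x), B, K, hconv, ?_, ?_, ?_, ?_, ?_, ?_, ?_, ?_⟩
  · -- even
    intro hev x
    rw [hueq, hueq, ← integral_neg_eq_self (fun t => ρ t * f (x - t))]
    refine integral_congr_ae (Eventually.of_forall fun t => ?_)
    simp only
    rw [hρe, ← hev (x - -t)]
    congr 2
    abel
  · -- approximation
    intro x
    have h1 : dist (u x) (f x) ≤ ε := by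
      rw [hudef, hρ]
      refine φ.dist_normed_convolution_le hfc.aestronglyMeasurable fun y hy => ?_
      have h2 := hL.dist_le_mul y x
      have h3 : dist y x < r := hy
      nlinarith
    rwa [Real.dist_eq] at h1
  · intro x
    have h1 := (hdiff x).hasFDerivAt
    have h2 : innerSL ℝ (J (fderiv ℝ u x)) = fderiv ℝ u x := by
      ext h
      rw [innerSL_apply_apply]
      exact hJ _ _
    rw [h2]
    exact h1
  · intro x h
    rw [hJ]
    exact (t10_grad u hconv x h _ (hdiff x).hasFDerivAt).trans (hinc x h)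
  · intro x
    rw [hBc]
    exact J.hasFDerivAt.comp x (hDd x).hasFDerivAt
  · have h1 : Continuous (fun x => fderiv ℝ (fderiv ℝ u) x) := hDu.continuous_fderiv (by simp)
    refine continuous_pi fun i => continuous_pi fun j => ?_
    simp only [hent]
    exact (h1.clm_apply continuous_const).clm_apply continuous_const
  · intro x
    rw [Matrix.posSemidef_iff_dotProduct_mulVec]
    constructor
    · ext i j
      rw [Matrix.conjTranspose_apply, star_trivial, hent, hent]
      have hsymm : IsSymmSndFDerivAt ℝ u x :=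
        hus.contDiffAt.isSymmSndFDerivAt (by rw [minSmoothness_of_isRCLikeNormedField]; exact WithTop.coe_le_coe.mpr (le_top : (2 : ℕ∞) ≤ ⊤))
      exact hsymm _ _
    · intro w
      have h1 := t10_second (fun x => fderiv ℝ u x)
        (t10_mono u hconv _ fun y => (hdiff y).hasFDerivAt) _ x (hDd x).hasFDerivAt (WithLp.toLp 2 w)
      rw [← hin, Matrix.inner_toEuclideanCLM] at h1
      exact h1
  · intro x i j
    rw [hent]
    have h1 : ‖fderiv ℝ (fderiv ℝ u) x‖ ≤ K := norm_fderiv_le_of_lipschitz ℝ hK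
    calc |fderiv ℝ (fderiv ℝ u) x (EuclideanSpace.single j 1) (EuclideanSpace.single i 1)|
        ≤ ‖fderiv ℝ (fderiv ℝ u) x‖ * ‖(EuclideanSpace.single j (1:ℝ) : E n)‖ *
            ‖(EuclideanSpace.single i (1:ℝ) : E n)‖ := by
          rw [← Real.norm_eq_abs]
          exact (fderiv ℝ (fderiv ℝ u) x).le_opNorm₂ _ _
      _ ≤ K := by simpa using h1

end Pool.Agent.H706R2.Mah
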